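import Pool.Agent.H58.Heat.Fin

/-!
Weak Gaussian heat smoothing with the near-linear rate `d / (1 + log d) ^ 2`, for every `p > 2`,
independently of the dimension.

Outline of the proof. Let `f` be in the tail space of degree `d`, `F = |f| ^ (p / 2)`, and let
`kappa` be the energy of `F`. (1) The density `F ^ 2` is compared with the maximum likelihood
density `exp g` among log-Lipschitz densities with constant `L`: the optimality conditions and a
semigroup competitor give `F ^ 2 = exp g` outside a set of mass `4 kappa / L ^ 2`.
(2) Weighted `L2` bounds with weight `exp (theta g)` for complex times of the Ornstein-Uhlenbeck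
semigroup. (3) A maximum principle in a sector of opening close to a half plane.
-/

set_option autoImplicit false

namespace Pool.Agent.Results.MP_744226_an.NearLinear

/-- For every `p > 2` there is `c > 0` such that for all `d ≥ 1`, all `n` and every finite
combination `f` of Hermite products of degree `≥ d` on `ℝⁿ`, the `L^p(Gaussian)` norm of the
Ornstein-Uhlenbeck operator `x·∇f − Δf` is at least `c·d/(1+log d)^2·‖f‖_p`. -/
theorem result :
    ∀ p : ℝ, 2 < p → ∃ c : ℝ, 0 < c ∧ ∀ d : ℕ, 1 ≤ d → ∀ n : ℕ, ∀ f : (Fin n → ℝ) → ℝ,
      f ∈ Submodule.span ℝ {g : (Fin n → ℝ) → ℝ | ∃ α : Fin n → ℕ, d ≤ ∑ i, α i ∧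
          g = fun x => ∏ i, Polynomial.aeval (x i) (Polynomial.hermite (α i))} →
      ENNReal.ofReal (c * (d : ℝ) / (1 + Real.log d) ^ 2) *
          MeasureTheory.eLpNorm f (ENNReal.ofReal p)
            (MeasureTheory.Measure.pi (fun _ : Fin n => ProbabilityTheory.gaussianReal 0 1))
        ≤ MeasureTheory.eLpNorm
            (fun x => ∑ i, (x i * fderiv ℝ f x (Pi.single i 1)
              - fderiv ℝ (fun y => fderiv ℝ f y (Pi.single i 1)) x (Pi.single i 1)))
            (ENNReal.ofReal p)
            (MeasureTheory.Measure.pi (fun _ : Fin n => ProbabilityTheory.gaussianReal 0 1)) :=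
  Pool.Agent.H58.Heat.near_linear

end Pool.Agent.Results.MP_744226_an.NearLinear
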